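import Mathlib
import Pool.Agent.L7h19.FT.Stm
import Pool.Agent.L7h89.RP.StRank
import Pool.Agent.W262.RK.MA

/-!
# Project FT (owner helper19, problem MP_157626_nt): the bound for values (`S_RKF`)
-/

set_option autoImplicit false
set_option linter.unusedSectionVars false

namespace Pool.Agent.L7h89.FT

open Finset Polynomial Pool.Agent.W262.RK Pool.Agent.W307.RT Pool.Agent.L7h19.RP
open Pool.Agent.L7h19.FT Pool.Agent.L7h89.RP
open Pool.Agent.L7h19 (IS.om)

variable {J : Type} [Fintype J] [DecidableEq J]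

lemma dvd_mc {cls : J → Fin 3} {s : J → ℕ} {c : Fin 3} {p : ℕ} (hp : p.Prime) :
    p ∣ mc cls s c ↔ ∃ j, cls j = c ∧ p ∣ s j := by
  unfold mc
  rw [hp.prime.dvd_finsetProd_iff]
  constructor
  · rintro ⟨j, hj, h⟩
    exact ⟨j, (mem_filter.1 hj).2, h⟩
  · rintro ⟨j, hj, h⟩
    exact ⟨j, mem_filter.2 ⟨mem_univ _, hj⟩, h⟩

lemma Mt_eq (cls : J → Fin 3) (s : J → ℕ) : Mt (mc cls s) = ∏ j, s j := by
  unfold Mt mc
  exact prod_fiberwise univ cls s

lemma jac_prod {t p : ℕ} (ht : Squarefree t) :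
    jacobiSym (t : ℤ) p = ∏ q ∈ t.primeFactors, jacobiSym (q : ℤ) p := by
  conv_lhs => rw [← Nat.prod_primeFactors_of_squarefree ht]
  rw [Nat.cast_prod]
  have h : ∀ S : Finset ℕ, jacobiSym (∏ q ∈ S, (q : ℤ)) p = ∏ q ∈ S, jacobiSym (q : ℤ) p := by
    intro S
    induction S using Finset.induction_on with
    | empty => simp [jacobiSym.one_left]
    | insert a S ha ih => rw [prod_insert ha, prod_insert ha, jacobiSym.mul_left, ih]
  exact h _

lemma jac_prodJ (S : Finset J) (τ : J → ℕ) (p : ℕ) :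
    jacobiSym ((∏ l ∈ S, τ l : ℕ) : ℤ) p = ∏ l ∈ S, jacobiSym (τ l : ℤ) p := by
  induction S using Finset.induction_on with
  | empty => simp [jacobiSym.one_left]
  | insert a S ha ih => rw [prod_insert ha, prod_insert ha, Nat.cast_mul, jacobiSym.mul_left, ih]

lemma uniq_of {s : J → ℕ} (hcop : ∀ i j, i ≠ j → (s i).Coprime (s j)) {p : ℕ} (hp : p.Prime)
    {i j : J} (hi : p ∣ s i) (hj : p ∣ s j) : i = j := by
  by_contra hne
  have h := Nat.dvd_gcd hi hj
  rw [hcop i j hne] at h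
  exact hp.one_lt.ne' (Nat.dvd_one.1 h)

lemma prod_pf {s τ : J → ℕ} (hcop : ∀ i j, i ≠ j → (s i).Coprime (s j)) (h0 : ∀ j, s j ≠ 0)
    (hτ : ∀ j, τ j ∣ s j) (f : ℕ → ℤ) :
    ∏ q ∈ (∏ j, τ j).primeFactors, f q = ∏ j, ∏ q ∈ (τ j).primeFactors, f q := by
  have hpf : (∏ j, τ j).primeFactors = univ.biUnion (fun j => (τ j).primeFactors) := by
    ext q
    rw [Nat.mem_primeFactors, mem_biUnion]
    constructor
    · rintro ⟨hq, hd, -⟩
      obtain ⟨j, hj, hjd⟩ := (hq.prime.dvd_finsetProd_iff _).1 hd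
      exact ⟨j, hj, Nat.mem_primeFactors.2 ⟨hq, hjd, fun h => h0 j (by
        have := hτ j
        rw [h] at this
        exact Nat.eq_zero_of_zero_dvd this)⟩⟩
    · rintro ⟨j, hj, hq⟩
      rw [Nat.mem_primeFactors] at hq
      refine ⟨hq.1, hq.2.1.trans (dvd_prod_of_mem _ hj), prod_ne_zero_iff.2 fun l _ h => h0 l ?_⟩
      have := hτ l
      rw [h] at this
      exact Nat.eq_zero_of_zero_dvd this
  rw [hpf, prod_biUnion]
  intro i _ j _ hij
  rw [Function.onFun, Finset.disjoint_left]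
  intro q hqi hqj
  rw [Nat.mem_primeFactors] at hqi hqj
  exact hij (uniq_of hcop hqi.1 (hqi.2.1.trans (hτ i)) (hqj.2.1.trans (hτ j)))

theorem NN_le {cls : J → Fin 3} {κ : J → ℤ} {s : J → ℕ} {E : Finset ℕ}
    (hcop : ∀ i j, i ≠ j → (s i).Coprime (s j)) (hsq : ∀ j, Squarefree (s j))
    (hE : ∀ j (p : ℕ), p.Prime → p ∣ s j → ¬ (p : ℤ) ∣ κ j ∧ (p ∈ E ↔ jacobiSym (κ j) p = -1)) :
    NN cls κ s ≤ N0 (mc cls s) E := by
  classical
  have h0 : ∀ j, s j ≠ 0 := fun j => (hsq j).ne_zero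
  unfold NN N0
  refine card_le_card_of_injOn (fun τ => ∏ j, τ j) ?_ ?_
  · intro τ hτ
    rw [mem_coe, mem_filter] at hτ
    obtain ⟨hτ1, hτ2, hτ3⟩ := hτ
    rw [mem_coe, mem_filter, Nat.mem_divisors, Mt_eq]
    refine ⟨⟨prod_dvd_prod_of_dvd _ _ fun j _ => hτ2 j, prod_ne_zero_iff.2 fun j _ => h0 j⟩, ?_⟩
    intro p hp
    have hpp := Nat.prime_of_mem_primeFactors hp
    obtain ⟨j, -, hj⟩ := (hpp.prime.dvd_finsetProd_iff _).1 (Nat.dvd_of_mem_primeFactors hp)
    have hc := hτ3 j p hpp hj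
    rw [jacobiSym.mul_left] at hc
    have hpi : Prime (p : ℤ) := Nat.prime_iff_prime_int.1 hpp
    rw [prod_pf hcop h0 hτ2]
    have hval : ∀ l, (∏ q ∈ (τ l).primeFactors, sy3 (mc cls s) E p q) =
        (if l = j then jacobiSym (if p ∣ τ j then κ j else 1) p else 1) *
          (if cls l ≠ cls j then jacobiSym (τ l : ℤ) p else 1) := by
      intro l
      have hcl : ∀ q ∈ (τ l).primeFactors, q.Prime ∧ q ∣ s l := fun q hq =>
        ⟨Nat.prime_of_mem_primeFactors hq, (Nat.dvd_of_mem_primeFactors hq).trans (hτ2 l)⟩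
      by_cases hlj : l = j
      · subst hlj
        rw [if_pos rfl, if_neg (show ¬ (cls l ≠ cls l) from fun h => h rfl), mul_one]
        have h1 : ∀ q ∈ (τ l).primeFactors, sy3 (mc cls s) E p q =
            if q = p then (if p ∈ E then -1 else 1) else 1 := by
          intro q hq
          unfold sy3
          split_ifs with h1 h2 h3 h3 <;> try rfl
          exact absurd ⟨cls l, (dvd_mc hpp).2 ⟨l, rfl, hj⟩,
            (dvd_mc (hcl q hq).1).2 ⟨l, rfl, (hcl q hq).2⟩⟩ h3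
        rw [prod_congr rfl h1, prod_ite_eq']
        have hE' := hE l p hpp hj
        have hjac : jacobiSym (κ l) p = 1 ∨ jacobiSym (κ l) p = -1 := by
          apply jacobiSym.eq_one_or_neg_one
          rw [Int.gcd_comm]
          exact Int.isCoprime_iff_gcd_eq_one.1 ((Prime.coprime_iff_not_dvd hpi).2 hE'.1)
        have hmem : p ∈ (τ l).primeFactors ↔ p ∣ τ l := by
          rw [Nat.mem_primeFactors]
          refine ⟨fun h => h.2.1, fun h => ⟨hpp, h, fun h3 => h0 l ?_⟩⟩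
          have := hτ2 l
          rw [h3] at this
          exact Nat.eq_zero_of_zero_dvd this
        by_cases hd : p ∣ τ l
        · rw [if_pos (hmem.2 hd), if_pos hd]
          by_cases hpE : p ∈ E
          · rw [if_pos hpE, hE'.2.1 hpE]
          · rw [if_neg hpE]
            rcases hjac with h5 | h5
            · rw [h5]
            · exact absurd (hE'.2.2 h5) hpE
        · rw [if_neg (fun h => hd (hmem.1 h)), if_neg hd, jacobiSym.one_left]
      · rw [if_neg hlj, one_mul]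
        have hne : ∀ q ∈ (τ l).primeFactors, q ≠ p := by
          rintro q hq rfl
          exact hlj (uniq_of hcop hpp (hcl q hq).2 hj)
        by_cases hcc : cls l = cls j
        · rw [if_neg (by simpa using hcc)]
          refine prod_eq_one fun q hq => ?_
          unfold sy3
          rw [if_neg (hne q hq), if_pos]
          exact ⟨cls j, (dvd_mc hpp).2 ⟨j, rfl, hj⟩,
            (dvd_mc (hcl q hq).1).2 ⟨l, hcc, (hcl q hq).2⟩⟩
        · rw [if_pos hcc, jac_prod ((hsq l).squarefree_of_dvd (hτ2 l))]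
          refine prod_congr rfl fun q hq => ?_
          unfold sy3
          rw [if_neg (hne q hq), if_neg]
          rintro ⟨c, h1, h2⟩
          obtain ⟨j1, hj1, hd1⟩ := (dvd_mc hpp).1 h1
          obtain ⟨l1, hl1, hd2⟩ := (dvd_mc (hcl q hq).1).1 h2
          have e1 := uniq_of hcop hpp hd1 hj
          have e2 := uniq_of hcop (hcl q hq).1 hd2 (hcl q hq).2
          subst e1 e2
          exact hcc (hl1.trans hj1.symm)
    rw [prod_congr rfl fun l _ => hval l, prod_mul_distrib, prod_ite_eq', if_pos (mem_univ _)]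
    rw [← prod_filter]
    have hu : jacobiSym (uu cls τ j : ℤ) p =
        ∏ l ∈ univ.filter (fun l => cls l ≠ cls j), jacobiSym (τ l : ℤ) p := by
      unfold uu
      exact jac_prodJ _ _ _
    rw [← hu]
    exact hc
  · intro τ hτ τ' hτ' heq
    rw [mem_coe, mem_filter] at hτ hτ'
    have h1 := hτ.2.1
    have h2 := hτ'.2.1
    have key : ∀ (σ σ' : J → ℕ), (∀ j, σ j ∣ s j) → (∀ j, σ' j ∣ s j) →
        ∏ j, σ j = ∏ j, σ' j → ∀ j, σ j ∣ σ' j := by
      intro σ σ' hσ hσ' he j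
      have hs := (hsq j).squarefree_of_dvd (hσ j)
      rw [← Nat.prod_primeFactors_of_squarefree hs]
      have hs' := (hsq j).squarefree_of_dvd (hσ' j)
      rw [← Nat.prod_primeFactors_of_squarefree hs']
      apply prod_dvd_prod_of_subset
      intro q hq
      rw [Nat.mem_primeFactors] at hq ⊢
      refine ⟨hq.1, ?_, hs'.ne_zero⟩
      have h3 : q ∣ ∏ j, σ' j := he ▸ hq.2.1.trans (dvd_prod_of_mem _ (mem_univ j))
      obtain ⟨l, -, hl⟩ := (hq.1.prime.dvd_finsetProd_iff _).1 h3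
      have h4 := uniq_of hcop hq.1 (hl.trans (hσ' l)) (hq.2.1.trans (hσ j))
      exact h4 ▸ hl
    funext j
    exact Nat.dvd_antisymm (key τ τ' h1 h2 heq j) (key τ' τ h2 h1 heq.symm j)


/-! ## The values -/

lemma Fv_d {cls : J → Fin 3} {a : Fin 3 → ℤ} {x : J → ℤ} {z y : ℕ} (hG : Gd z x)
    (hB : ∀ p : ℕ, p.Prime → z < p → ∀ k, ¬ (p : ℤ) ∣ a k) {p : ℕ} (hp : p.Prime) {j : J}
    (hj : p ∣ S1 z y x j) :
    (p : ℤ) ∣ Fv cls a x (cls j) ∧ ¬ (p : ℤ) ^ 2 ∣ Fv cls a x (cls j) := by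
  have h1 := (S1_dvd_iff hp).1 hj
  have hz := (mem_PS.1 h1.1).1.1
  have hpi : Prime (p : ℤ) := Nat.prime_iff_prime_int.1 hp
  have hmem : j ∈ univ.filter (fun l => cls l = cls j) := mem_filter.2 ⟨mem_univ _, rfl⟩
  have hs : Fv cls a x (cls j) =
      x j * (a (cls j) * ∏ l ∈ (univ.filter (fun l => cls l = cls j)).erase j, x l) := by
    unfold Fv
    rw [← mul_prod_erase _ _ hmem]
    ring
  rw [hs]
  refine ⟨h1.2.1.mul_right _, fun h => h1.2.2 ?_⟩
  have hco : IsCoprime ((p : ℤ) ^ 2)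
      (a (cls j) * ∏ l ∈ (univ.filter (fun l => cls l = cls j)).erase j, x l) :=
    IsCoprime.pow_left ((Prime.coprime_iff_not_dvd hpi).2
      (ndV hG hB hp hz h1.2.1 (notMem_erase _ _)))
  exact hco.dvd_of_dvd_mul_right h

lemma Fv_nd {cls : J → Fin 3} {a : Fin 3 → ℤ} {x : J → ℤ} {z y : ℕ} (hG : Gd z x)
    (hB : ∀ p : ℕ, p.Prime → z < p → ∀ k, ¬ (p : ℤ) ∣ a k) {p : ℕ} (hp : p.Prime) {j : J}
    (hj : p ∣ S1 z y x j) {c : Fin 3} (hc : cls j ≠ c) : ¬ (p : ℤ) ∣ Fv cls a x c := by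
  have h1 := (S1_dvd_iff hp).1 hj
  unfold Fv
  exact ndV hG hB hp (mem_PS.1 h1.1).1.1 h1.2.1 (fun h => hc (mem_filter.1 h).2)

/-- the number of the primes outside `S1` which divide one of the values -/
lemma badF {n : ℤ} {x : J → ℤ} {z y X K D : ℕ} {T : Finset J}
    (hG : Gd z x) (hn : ∀ q : ℕ, q.Prime → z < q → (q : ℤ) ∣ n → ∃ l ∈ T, (q : ℤ) ∣ x l)
    (hy : 1 ≤ y) (hb : ∀ j, (x j).natAbs ≤ X ^ D) (hK : X < (y + 1) ^ K) :
    (n.natAbs.primeFactors.filter (fun q => ∀ j ∈ T, ¬ q ∣ S1 z y x j)).card ≤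
      z + Fintype.card J * (D * K) + ∑ j, (S2 z y x j).primeFactors.card := by
  have h0 := hG.1
  have hsub : (n.natAbs.primeFactors.filter (fun q => ∀ j ∈ T, ¬ q ∣ S1 z y x j)) ⊆
      ((Icc 1 z) ∪ univ.biUnion (fun j => (x j).natAbs.primeFactors.filter (y < ·))) ∪
        univ.biUnion (fun j => (S2 z y x j).primeFactors) := by
    intro q hq
    rw [mem_filter] at hq
    have hp := Nat.prime_of_mem_primeFactors hq.1
    have hdv := Nat.dvd_of_mem_primeFactors hq.1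
    rw [mem_union, mem_union, mem_Icc]
    rcases Nat.lt_or_ge z q with h | h
    swap
    · exact Or.inl (Or.inl ⟨hp.one_lt.le, h⟩)
    · obtain ⟨l, hlT, hl⟩ := hn q hp h (Int.natCast_dvd.2 hdv)
      rcases Nat.lt_or_ge y q with hyq | hyq
      · left; right
        rw [mem_biUnion]
        refine ⟨l, mem_univ _, ?_⟩
        rw [mem_filter, Nat.mem_primeFactors]
        exact ⟨⟨hp, Int.natCast_dvd.1 hl, Int.natAbs_ne_zero.2 (h0 l)⟩, hyq⟩
      · right
        have hPS : q ∈ PS z y := mem_PS.2 ⟨⟨h, hyq⟩, hp⟩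
        rw [mem_biUnion]
        refine ⟨l, mem_univ _, ?_⟩
        have hsq : (q : ℤ) ^ 2 ∣ x l := by
          by_contra hcon
          exact hq.2 l hlT ((S1_dvd_iff hp).2 ⟨hPS, hl, hcon⟩)
        rw [Nat.mem_primeFactors]
        refine ⟨hp, dvd_prod_of_mem _ (mem_filter.2 ⟨hPS, hsq⟩), ?_⟩
        exact prod_ne_zero_iff.2 fun p hp => (mem_PS.1 (mem_filter.1 hp).1).2.ne_zero
  have hone : ∀ j, ((x j).natAbs.primeFactors.filter (y < ·)).card ≤ D * K := by
    intro j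
    set S := (x j).natAbs.primeFactors.filter (y < ·) with hS
    have h1 : (y + 1) ^ S.card ≤ ∏ q ∈ S, q :=
      Finset.pow_card_le_prod _ _ _ (fun q hq => by
        have := (mem_filter.1 hq).2
        omega)
    have h2 : ∏ q ∈ S, q ∣ (x j).natAbs :=
      (prod_dvd_prod_of_subset _ _ _ (filter_subset _ _)).trans (Nat.prod_primeFactors_dvd _)
    have h3 : ∏ q ∈ S, q ≤ (x j).natAbs :=
      Nat.le_of_dvd (Nat.pos_of_ne_zero (Int.natAbs_ne_zero.2 (h0 j))) h2
    have h4 : (y + 1) ^ S.card ≤ (y + 1) ^ (D * K) := by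
      calc (y + 1) ^ S.card ≤ X ^ D := h1.trans (h3.trans (hb j))
        _ ≤ ((y + 1) ^ K) ^ D := Nat.pow_le_pow_left hK.le D
        _ = (y + 1) ^ (D * K) := by rw [← pow_mul, mul_comm]
    exact (Nat.pow_le_pow_iff_right (by omega)).1 h4
  refine (card_le_card hsub).trans ((card_union_le _ _).trans (add_le_add
    ((card_union_le _ _).trans (add_le_add ?_ ?_)) card_biUnion_le))
  · simp
  · refine card_biUnion_le.trans ?_
    refine (sum_le_sum fun j _ => hone j).trans ?_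
    rw [sum_const, card_univ, smul_eq_mul]

lemma Fv_prime {cls : J → Fin 3} {a : Fin 3 → ℤ} {x : J → ℤ} {z : ℕ}
    (hB : ∀ p : ℕ, p.Prime → z < p → ∀ k, ¬ (p : ℤ) ∣ a k) (c : Fin 3) (q : ℕ) (hq : q.Prime)
    (hz : z < q) (h : (q : ℤ) ∣ Fv cls a x c) :
    ∃ l ∈ univ.filter (fun l => cls l = c), (q : ℤ) ∣ x l := by
  have hqi : Prime (q : ℤ) := Nat.prime_iff_prime_int.1 hq
  unfold Fv at h
  rcases hqi.dvd_or_dvd h with h1 | h1
  · exact absurd h1 (hB q hq hz c)
  · exact (hqi.dvd_finsetProd_iff _).1 h1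

/-- `ω (F c) ≤ ω (m c) + T` -/
lemma om_le {cls : J → Fin 3} {a : Fin 3 → ℤ} {x : J → ℤ} {z y X K D : ℕ} (hG : Gd z x)
    (hB : ∀ p : ℕ, p.Prime → z < p → ∀ k, ¬ (p : ℤ) ∣ a k)
    (hy : 1 ≤ y) (hb : ∀ j, (x j).natAbs ≤ X ^ D) (hK : X < (y + 1) ^ K) (c : Fin 3) :
    Pool.Agent.L7h19.IS.om (Fv cls a x c) ≤ (mc cls (S1 z y x) c).primeFactors.card +
      (z + Fintype.card J * (D * K) + ∑ j, (S2 z y x j).primeFactors.card) := by
  have h1 := badF (n := Fv cls a x c) (T := univ.filter (fun l => cls l = c)) hG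
    (Fv_prime hB c) hy hb hK
  refine le_trans ?_ (Nat.add_le_add_left h1 _)
  unfold Pool.Agent.L7h19.IS.om
  refine (card_le_card ?_).trans (card_union_le _ _)
  intro q hq
  rw [mem_union, mem_filter]
  by_cases h : ∃ j ∈ univ.filter (fun l => cls l = c), q ∣ S1 z y x j
  · left
    obtain ⟨j, hj, hjd⟩ := h
    have hp := Nat.prime_of_mem_primeFactors hq
    rw [Nat.mem_primeFactors]
    refine ⟨hp, (dvd_mc hp).2 ⟨j, (mem_filter.1 hj).2, hjd⟩, ?_⟩
    exact prod_ne_zero_iff.2 fun j _ => S1_ne j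
  · right
    exact ⟨hq, fun j hj hd => h ⟨j, hj, hd⟩⟩

lemma kz_nd {cls : J → Fin 3} {a : Fin 3 → ℤ} {x : J → ℤ} {z y : ℕ} (hG : Gd z x)
    (hB : ∀ p : ℕ, p.Prime → z < p → ∀ k, ¬ (p : ℤ) ∣ a k) {p : ℕ} (hp : p.Prime) {j : J}
    (hj : p ∣ S1 z y x j) : ¬ (p : ℤ) ∣ kz (Fv cls a x 0) (Fv cls a x 1) (cls j) := by
  unfold kz
  split_ifs with h0 h1
  · rw [dvd_neg]
    exact Fv_nd hG hB hp hj (by rw [h0]; decide)
  · rw [dvd_neg]
    exact Fv_nd hG hB hp hj (by rw [h1]; decide)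
  · exact Fv_nd hG hB hp hj h0

/-- the split primes of class `c` are counted in `sp` -/
lemma sp_le {cls : J → Fin 3} {a : Fin 3 → ℤ} {x : J → ℤ} {z y : ℕ} {E : Finset ℕ} (hz2 : 2 ≤ z)
    (hG : Gd z x) (hB : ∀ p : ℕ, p.Prime → z < p → ∀ k, ¬ (p : ℤ) ∣ a k)
    (ha : ∀ c, a c ≠ 0)
    (hE : ∀ j (p : ℕ), p.Prime → p ∣ S1 z y x j →
      (p ∈ E ↔ jacobiSym (kz (Fv cls a x 0) (Fv cls a x 1) (cls j)) p = -1)) (c : Fin 3) :
    (Ms (mc cls (S1 z y x)) E c).primeFactors.card ≤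
      sp (kz (Fv cls a x 0) (Fv cls a x 1) c) (Fv cls a x c) := by
  unfold sp
  apply card_le_card
  intro p hp
  have hpp := Nat.prime_of_mem_primeFactors hp
  have hd := Nat.dvd_of_mem_primeFactors hp
  unfold Ms at hd
  obtain ⟨q, hq, hpq⟩ := (hpp.prime.dvd_finsetProd_iff _).1 hd
  rw [mem_filter] at hq
  have hqp := Nat.prime_of_mem_primeFactors hq.1
  have hqe : p = q := (Nat.prime_dvd_prime_iff_eq hpp hqp).1 hpq
  subst hqe
  obtain ⟨j, hj, hjd⟩ := (dvd_mc hpp).1 (Nat.dvd_of_mem_primeFactors hq.1)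
  have h1 := Fv_d (cls := cls) hG hB hpp hjd
  rw [hj] at h1
  have hz := (mem_PS.1 ((S1_dvd_iff hpp).1 hjd).1).1.1
  have hne : Fv cls a x c ≠ 0 := by
    unfold Fv
    exact mul_ne_zero (ha c) (prod_ne_zero_iff.2 fun j _ => hG.1 j)
  rw [mem_filter, Nat.mem_primeFactors]
  refine ⟨⟨hpp, Int.natCast_dvd.1 h1.1, Int.natAbs_ne_zero.2 hne⟩, by omega, ?_⟩
  have h2 := kz_nd (cls := cls) hG hB hpp hjd
  have h3 := hE j p hpp hjd
  rw [hj] at h2 h3
  have hpi : Prime (p : ℤ) := Nat.prime_iff_prime_int.1 hpp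
  have hjac := jacobiSym.eq_one_or_neg_one (a := kz (Fv cls a x 0) (Fv cls a x 1) c) (b := p) (by
    rw [Int.gcd_comm]
    exact Int.isCoprime_iff_gcd_eq_one.1 ((Prime.coprime_iff_not_dvd hpi).2 h2))
  rcases hjac with h5 | h5
  · exact h5
  · exact absurd (h3.2 h5) hq.2

lemma jac_sq' {p : ℕ} (hp : p.Prime) {u v : ℤ} (hv : u * v = v ^ 2 ∨ u * v = (-v) ^ 2)
    (hx : ¬ (p : ℤ) ∣ v) : jacobiSym (u * v) p = 1 := by
  rcases hv with h | h
  · rw [h]; exact jac_sq hp hx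
  · rw [h]; exact jac_sq hp (by rwa [dvd_neg])

lemma kz0 (A B : ℤ) : kz A B 0 = -B := rfl
lemma kz1 (A B : ℤ) : kz A B 1 = -A := rfl
lemma kz2 (A B : ℤ) : kz A B 2 = A := rfl
lemma dz0 (A B : ℤ) : dz A B 0 = (sp (-B) A : ℤ) - Pool.Agent.L7h19.IS.om B -
    Pool.Agent.L7h19.IS.om (A - B) := rfl
lemma dz1 (A B : ℤ) : dz A B 1 = (sp (-A) B : ℤ) - Pool.Agent.L7h19.IS.om A -
    Pool.Agent.L7h19.IS.om (A - B) := rfl
lemma dz2 (A B : ℤ) : dz A B 2 = (sp A (A - B) : ℤ) - Pool.Agent.L7h19.IS.om A -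
    Pool.Agent.L7h19.IS.om B := rfl

/-- **S_RKF** -/
theorem s_RKF : S_RKF := by
  intro J _ _ cls a G x z y X k D E hz2 hG ha hB heq hb hX hy hk hE
  set A := Fv cls a x 0 with hA
  set B := Fv cls a x 1 with hBd
  have hF0 : ∀ c, Fv cls a x c ≠ 0 := fun c => by
    unfold Fv
    exact mul_ne_zero (ha c) (prod_ne_zero_iff.2 fun j _ => hG.1 j)
  have hA0 : A ≠ 0 := hF0 0
  have hB0 : B ≠ 0 := hF0 1
  have hAB : A ≠ B := fun h => hF0 2 (by rw [← heq, h, sub_self])
  have hcop : ∀ i j : J, i ≠ j → (S1 z y x i).Coprime (S1 z y x j) := by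
    intro i j hij
    rw [Nat.coprime_iff_gcd_eq_one]
    by_contra hne
    obtain ⟨p, hp, hpd⟩ := Nat.exists_prime_and_dvd hne
    exact hij (S1_uniq hG hp (hpd.trans (Nat.gcd_dvd_right _ _))
      (hpd.trans (Nat.gcd_dvd_left _ _)))
  have hd := desc_thm J cls (fun j => kz A B (cls j)) (S1 z y x) A B hA0 hB0 hAB ?_
    (fun j => S1_sqf j) hcop ?_ ?_ ?_
  rotate_left
  · intro j
    rw [← Nat.not_even_iff_odd, even_iff_two_dvd]
    intro h
    have := (mem_PS.1 ((S1_dvd_iff Nat.prime_two).1 h).1).1.1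
    omega
  · intro j hj p hp hd
    have h1 := Fv_d (cls := cls) hG hB hp hd
    have h2 := Fv_nd (cls := cls) hG hB hp hd (c := 1) (by rw [hj]; decide)
    rw [hj] at h1
    refine ⟨h1.1, h1.2, h2, ?_⟩
    refine jac_sq' hp (Or.inl ?_) (by rwa [dvd_neg])
    rw [hj, kz0]
    ring
  · intro j hj p hp hd
    have h1 := Fv_d (cls := cls) hG hB hp hd
    have h2 := Fv_nd (cls := cls) hG hB hp hd (c := 0) (by rw [hj]; decide)
    rw [hj] at h1
    refine ⟨h1.1, h1.2, h2, ?_⟩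
    refine jac_sq' hp (Or.inl ?_) (by rwa [dvd_neg])
    rw [hj, kz1]
    ring
  · intro j hj p hp hd
    have h1 := Fv_d (cls := cls) hG hB hp hd
    have h2 := Fv_nd (cls := cls) hG hB hp hd (c := 0) (by rw [hj]; decide)
    rw [hj] at h1
    refine ⟨by rw [heq]; exact h1.1, by rw [heq]; exact h1.2, h2, ?_⟩
    refine jac_sq' hp (Or.inl ?_) h2
    rw [hj, kz2]
    ring
  have hNN : NN cls (fun j => kz A B (cls j)) (S1 z y x) ≤ N0 (mc cls (S1 z y x)) E :=
    NN_le hcop (fun j => S1_sqf j) fun j p hp hd => ⟨kz_nd hG hB hp hd, hE j p hp hd⟩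
  set T : ℕ := z + Fintype.card J * (D * k) + ∑ j, (S2 z y x j).primeFactors.card with hT
  have hbad : ((2 * A * B * (A - B)).natAbs.primeFactors.filter
      (fun q => ∀ j, ¬ q ∣ S1 z y x j)).card ≤ T := by
    have h1 := badF (n := 2 * A * B * (A - B)) (T := (univ : Finset J)) hG ?_ hy hb hk
    · refine le_trans (card_le_card ?_) h1
      intro q hq
      rw [mem_filter] at hq ⊢
      exact ⟨hq.1, fun j _ => hq.2 j⟩
    · intro q hq hz h
      have hqi : Prime (q : ℤ) := Nat.prime_iff_prime_int.1 hq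
      have h3 : ∀ c, (q : ℤ) ∣ Fv cls a x c → ∃ l ∈ (univ : Finset J), (q : ℤ) ∣ x l := by
        intro c hc
        obtain ⟨l, -, hl⟩ := Fv_prime hB c q hq hz hc
        exact ⟨l, mem_univ _, hl⟩
      rw [heq] at h
      rcases hqi.dvd_or_dvd h with h | h
      · rcases hqi.dvd_or_dvd h with h | h
        · rcases hqi.dvd_or_dvd h with h | h
          · exfalso
            have h4 : q ∣ 2 := by exact_mod_cast h
            have h5 := Nat.le_of_dvd (by norm_num) h4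
            omega
          · exact h3 0 h
        · exact h3 1 h
      · exact h3 2 h
  -- the exponents
  have hdl : ∀ c, dl (mc cls (S1 z y x)) E c ≤ dz A B c + 2 * T := by
    intro c
    have h1 := sp_le (cls := cls) (E := E) hz2 hG hB ha hE c
    have hom : ∀ c, Pool.Agent.L7h19.IS.om (Fv cls a x c) ≤
        (mc cls (S1 z y x) c).primeFactors.card + T := om_le hG hB hy hb hk
    have hMo : ∀ c c1 c2 : Fin 3, univ.filter (fun e : Fin 3 => e ≠ c) = {c1, c2} → c1 ≠ c2 →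
        (Mo (mc cls (S1 z y x)) c).primeFactors.card =
          (mc cls (S1 z y x) c1).primeFactors.card + (mc cls (S1 z y x) c2).primeFactors.card := by
      intro c c1 c2 h hne
      have hco : (mc cls (S1 z y x) c1).Coprime (mc cls (S1 z y x) c2) := by
        unfold mc
        refine Nat.Coprime.prod_left fun i hi => Nat.Coprime.prod_right fun j hj => ?_
        apply hcop
        rintro rfl
        exact hne ((mem_filter.1 hi).2.symm.trans (mem_filter.1 hj).2)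
      unfold Mo
      rw [h, prod_pair hne, hco.primeFactors_mul, card_union_of_disjoint hco.disjoint_primeFactors]
    have h0 := hom 0
    have h1' := hom 1
    have h2 := hom 2
    rw [← hA] at h0
    rw [← hBd] at h1'
    rw [← heq] at h2
    unfold dl
    have hc : c = 0 ∨ c = 1 ∨ c = 2 := by
      fin_cases c <;> simp
    rcases hc with rfl | rfl | rfl
    · have h3 := hMo 0 1 2 (by decide) (by decide)
      rw [kz0, ← hA, ← hBd] at h1
      rw [dz0, h3]
      push_cast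
      omega
    · have h3 := hMo 1 0 2 (by decide) (by decide)
      rw [kz1, ← hA, ← hBd] at h1
      rw [dz1, h3]
      push_cast
      omega
    · have h3 := hMo 2 0 1 (by decide) (by decide)
      rw [kz2, ← hA, ← heq] at h1
      rw [dz2, h3]
      push_cast
      omega
  have hex : ex G (mc cls (S1 z y x)) E ≤ ez G A B + 2 * T := by
    unfold ex
    refine Finset.sup_le fun c hc => ?_
    have h1 := hdl c
    have h2 : (dz A B c).toNat ≤ ez G A B := by
      unfold ez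
      exact Finset.le_sup (f := fun c => (dz A B c).toNat) hc
    omega
  set R := Module.finrank ℤ (EAB A B).toAffine.Point with hR
  set N := N0 (mc cls (S1 z y x)) E with hN
  set e := ex G (mc cls (S1 z y x)) E with he
  set e' := ez G A B with he'
  have h1 : 2 ^ R ≤ 4 ^ (T + 2) * N := by
    refine hd.trans (Nat.mul_le_mul (Nat.pow_le_pow_right (by norm_num) (by omega)) hNN)
  have h2 : (2 : ℝ) ^ R ≤ 4 ^ (T + 2) * N := by exact_mod_cast h1
  have hfac : (16 : ℝ) ^ (z + 2) * (16 ^ (D * Fintype.card J)) ^ k *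
      16 ^ (∑ j, (S2 z y x j).primeFactors.card) = 16 ^ (T + 2) := by
    rw [← pow_mul, ← pow_add, ← pow_add]
    congr 1
    rw [hT]
    ring
  unfold gF
  rw [hfac, ← hN, ← he, Real.rpow_sub (by norm_num), Real.rpow_natCast, Real.rpow_natCast,
    div_le_iff₀ (by positivity)]
  have h3 : (2 : ℝ) ^ e ≤ 2 ^ e' * 4 ^ (T + 2) := by
    calc (2 : ℝ) ^ e ≤ 2 ^ (e' + 2 * T) := pow_le_pow_right₀ (by norm_num) hex
      _ = 2 ^ e' * 4 ^ T := by rw [pow_add, pow_mul]; norm_num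
      _ ≤ 2 ^ e' * 4 ^ (T + 2) := by
          refine mul_le_mul_of_nonneg_left ?_ (by positivity)
          exact pow_le_pow_right₀ (by norm_num) (by omega)
  have h4 : (16 : ℝ) ^ (T + 2) = 4 ^ (T + 2) * 4 ^ (T + 2) := by
    rw [← mul_pow]; norm_num
  have hp : (0 : ℝ) < 2 ^ e := by positivity
  calc (2 : ℝ) ^ R ≤ 4 ^ (T + 2) * N := h2
    _ = 4 ^ (T + 2) * (N / 2 ^ e) * 2 ^ e := by field_simp
    _ ≤ 4 ^ (T + 2) * (N / 2 ^ e) * (2 ^ e' * 4 ^ (T + 2)) := by
        refine mul_le_mul_of_nonneg_left h3 (by positivity)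
    _ = 16 ^ (T + 2) * (N / 2 ^ e) * 2 ^ e' := by rw [h4]; ring

end Pool.Agent.L7h89.FT
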