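import Mathlib
import Pool.Agent.L7h19.FT.Stm3
import Pool.Agent.L7h89.FT.Rkf

/-!
# Project FT (owner helper19, problem MP_157626_nt): the comparison of the exponents (`S_DZ`)
-/

set_option autoImplicit false
set_option linter.unusedSectionVars false

namespace Pool.Agent.L7h89.FT

open Finset Polynomial Pool.Agent.W262.RK Pool.Agent.W307.RT Pool.Agent.L7h19.RP
open Pool.Agent.L7h19.FT Pool.Agent.L7h89.RP

variable {J : Type} [Fintype J] [DecidableEq J]

/-- the number of the primes `≤ z` -/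
def pz (z : ℕ) : ℕ := ((Icc 1 z).filter Nat.Prime).card

lemma two_pz (z : ℕ) : 2 * pz z ≤ z + 2 := by
  have h : (Icc 1 z).filter Nat.Prime ⊆ insert 2 ((range ((z + 1) / 2)).image (fun i => 2 * i + 1)) := by
    intro p hp
    rw [mem_filter, mem_Icc] at hp
    rw [mem_insert, mem_image]
    rcases hp.2.eq_two_or_odd with h | h
    · exact Or.inl h
    · right
      refine ⟨p / 2, ?_, by omega⟩
      rw [mem_range]
      omega
  have h0 : (Icc 1 z).filter Nat.Prime ⊆
      insert 2 (((range ((z + 1) / 2)).image (fun i => 2 * i + 1)).erase 1) := by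
    intro p hp
    have h1 := h hp
    rw [mem_insert] at h1 ⊢
    rcases h1 with h1 | h1
    · exact Or.inl h1
    · right
      rw [mem_erase]
      exact ⟨(mem_filter.1 hp).2.ne_one, h1⟩
  have h1 := card_le_card h0
  have h2 := card_insert_le 2 (((range ((z + 1) / 2)).image (fun i => 2 * i + 1)).erase 1)
  have h3 : ((range ((z + 1) / 2)).image (fun i => 2 * i + 1)).card ≤ (z + 1) / 2 := by
    refine card_image_le.trans ?_
    rw [card_range]
  have h4 := card_erase_le (s := (range ((z + 1) / 2)).image (fun i => 2 * i + 1)) (a := 1)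
  unfold pz
  rcases Nat.eq_zero_or_pos z with hz | hz
  · subst hz
    simp
  · have h5 : (1 : ℕ) ∈ (range ((z + 1) / 2)).image (fun i => 2 * i + 1) := by
      rw [mem_image]
      refine ⟨0, ?_, rfl⟩
      rw [mem_range]
      omega
    have h6 := card_erase_of_mem h5
    omega

/-- the sharp number of the primes outside `S1` -/
lemma badG {n : ℤ} {x : J → ℤ} {z y X K D : ℕ} {T : Finset J}
    (hG : Gd z x) (hn : ∀ q : ℕ, q.Prime → z < q → (q : ℤ) ∣ n → ∃ l ∈ T, (q : ℤ) ∣ x l)
    (hy : 1 ≤ y) (hb : ∀ j, (x j).natAbs ≤ X ^ D) (hK : X < (y + 1) ^ K) :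
    (n.natAbs.primeFactors.filter (fun q => ∀ j ∈ T, ¬ q ∣ S1 z y x j)).card ≤
      pz z + T.card * (D * K) + ∑ j ∈ T, (S2 z y x j).primeFactors.card := by
  have h0 := hG.1
  have hsub : (n.natAbs.primeFactors.filter (fun q => ∀ j ∈ T, ¬ q ∣ S1 z y x j)) ⊆
      (((Icc 1 z).filter Nat.Prime) ∪
        T.biUnion (fun j => (x j).natAbs.primeFactors.filter (y < ·))) ∪
        T.biUnion (fun j => (S2 z y x j).primeFactors) := by
    intro q hq
    rw [mem_filter] at hq
    have hp := Nat.prime_of_mem_primeFactors hq.1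
    have hdv := Nat.dvd_of_mem_primeFactors hq.1
    rw [mem_union, mem_union, mem_filter, mem_Icc]
    rcases Nat.lt_or_ge z q with h | h
    swap
    · exact Or.inl (Or.inl ⟨⟨hp.one_lt.le, h⟩, hp⟩)
    · obtain ⟨l, hlT, hl⟩ := hn q hp h (Int.natCast_dvd.2 hdv)
      rcases Nat.lt_or_ge y q with hyq | hyq
      · left; right
        rw [mem_biUnion]
        refine ⟨l, hlT, ?_⟩
        rw [mem_filter, Nat.mem_primeFactors]
        exact ⟨⟨hp, Int.natCast_dvd.1 hl, Int.natAbs_ne_zero.2 (h0 l)⟩, hyq⟩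
      · right
        have hPS : q ∈ PS z y := mem_PS.2 ⟨⟨h, hyq⟩, hp⟩
        rw [mem_biUnion]
        refine ⟨l, hlT, ?_⟩
        have hsq : (q : ℤ) ^ 2 ∣ x l := by
          by_contra hcon
          exact hq.2 l hlT ((S1_dvd_iff hp).2 ⟨hPS, hl, hcon⟩)
        rw [Nat.mem_primeFactors]
        refine ⟨hp, dvd_prod_of_mem _ (mem_filter.2 ⟨hPS, hsq⟩), ?_⟩
        exact prod_ne_zero_iff.2 fun p hp => (mem_PS.1 (mem_filter.1 hp).1).2.ne_zero
  have hone : ∀ j, ((x j).natAbs.primeFactors.filter (y < ·)).card ≤ D * K := by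
    intro j
    set S := (x j).natAbs.primeFactors.filter (y < ·) with hS
    have h1 : (y + 1) ^ S.card ≤ ∏ q ∈ S, q :=
      Finset.pow_card_le_prod _ _ _ (fun q hq => by
        have := (mem_filter.1 hq).2
        omega)
    have h2 : ∏ q ∈ S, q ∣ (x j).natAbs :=
      (prod_dvd_prod_of_subset _ _ _ (filter_subset _ _)).trans (Nat.prod_primeFactors_dvd _)
    have h3 : ∏ q ∈ S, q ≤ (x j).natAbs :=
      Nat.le_of_dvd (Nat.pos_of_ne_zero (Int.natAbs_ne_zero.2 (h0 j))) h2
    have h4 : (y + 1) ^ S.card ≤ (y + 1) ^ (D * K) := by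
      calc (y + 1) ^ S.card ≤ X ^ D := h1.trans (h3.trans (hb j))
        _ ≤ ((y + 1) ^ K) ^ D := Nat.pow_le_pow_left hK.le D
        _ = (y + 1) ^ (D * K) := by rw [← pow_mul, mul_comm]
    exact (Nat.pow_le_pow_iff_right (by omega)).1 h4
  refine (card_le_card hsub).trans ((card_union_le _ _).trans (add_le_add
    ((card_union_le _ _).trans (add_le_add ?_ ?_)) card_biUnion_le))
  · rfl
  · refine card_biUnion_le.trans ?_
    refine (sum_le_sum fun j _ => hone j).trans ?_
    rw [sum_const, smul_eq_mul]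

/-- the forms of class `c` -/
def fc (cls : J → Fin 3) (c : Fin 3) : Finset J := univ.filter (fun l => cls l = c)

/-- the bad primes of the value of class `c` -/
def bd (cls : J → Fin 3) (a : Fin 3 → ℤ) (x : J → ℤ) (z y : ℕ) (c : Fin 3) : ℕ :=
  ((Fv cls a x c).natAbs.primeFactors.filter (fun q => ∀ j ∈ fc cls c, ¬ q ∣ S1 z y x j)).card

lemma bd_le {cls : J → Fin 3} {a : Fin 3 → ℤ} {x : J → ℤ} {z y X K D : ℕ} (hG : Gd z x)
    (hB : ∀ p : ℕ, p.Prime → z < p → ∀ k, ¬ (p : ℤ) ∣ a k)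
    (hy : 1 ≤ y) (hb : ∀ j, (x j).natAbs ≤ X ^ D) (hK : X < (y + 1) ^ K) (c : Fin 3) :
    bd cls a x z y c ≤ pz z + (fc cls c).card * (D * K) +
      ∑ j ∈ fc cls c, (S2 z y x j).primeFactors.card :=
  badG hG (Fv_prime hB c) hy hb hK

lemma om_bd {cls : J → Fin 3} {a : Fin 3 → ℤ} {x : J → ℤ} {z y : ℕ} (hG : Gd z x)
    (ha : ∀ c, a c ≠ 0)
    (hB : ∀ p : ℕ, p.Prime → z < p → ∀ k, ¬ (p : ℤ) ∣ a k) (c : Fin 3) :
    (mc cls (S1 z y x) c).primeFactors.card ≤ Pool.Agent.L7h19.IS.om (Fv cls a x c) ∧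
    Pool.Agent.L7h19.IS.om (Fv cls a x c) ≤
      (mc cls (S1 z y x) c).primeFactors.card + bd cls a x z y c := by
  unfold Pool.Agent.L7h19.IS.om bd
  constructor
  · apply card_le_card
    intro p hp
    have hpp := Nat.prime_of_mem_primeFactors hp
    obtain ⟨j, hj, hjd⟩ := (dvd_mc hpp).1 (Nat.dvd_of_mem_primeFactors hp)
    have h1 := Fv_d (cls := cls) hG hB hpp hjd
    rw [hj] at h1
    have hne : Fv cls a x c ≠ 0 := by
      unfold Fv
      exact mul_ne_zero (ha c) (prod_ne_zero_iff.2 fun j _ => hG.1 j)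
    exact Nat.mem_primeFactors.2 ⟨hpp, Int.natCast_dvd.1 h1.1, Int.natAbs_ne_zero.2 hne⟩
  · refine (card_le_card ?_).trans (card_union_le _ _)
    intro q hq
    rw [mem_union, mem_filter]
    by_cases h : ∃ j ∈ fc cls c, q ∣ S1 z y x j
    · left
      obtain ⟨j, hj, hjd⟩ := h
      have hp := Nat.prime_of_mem_primeFactors hq
      rw [Nat.mem_primeFactors]
      refine ⟨hp, (dvd_mc hp).2 ⟨j, (mem_filter.1 hj).2, hjd⟩, ?_⟩
      exact prod_ne_zero_iff.2 fun j _ => S1_ne j
    · right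
      exact ⟨hq, fun j hj hd => h ⟨j, hj, hd⟩⟩

lemma sp_bd {cls : J → Fin 3} {a : Fin 3 → ℤ} {x : J → ℤ} {z y : ℕ} {E : Finset ℕ}
    (hE : ∀ j (p : ℕ), p.Prime → p ∣ S1 z y x j →
      (p ∈ E ↔ jacobiSym (kz (Fv cls a x 0) (Fv cls a x 1) (cls j)) p = -1)) (c : Fin 3) :
    sp (kz (Fv cls a x 0) (Fv cls a x 1) c) (Fv cls a x c) ≤
      (Ms (mc cls (S1 z y x)) E c).primeFactors.card + bd cls a x z y c := by
  unfold sp bd
  refine (card_le_card ?_).trans (card_union_le _ _)
  intro p hp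
  rw [mem_filter] at hp
  have hpp := Nat.prime_of_mem_primeFactors hp.1
  rw [mem_union, mem_filter]
  by_cases h : ∃ j ∈ fc cls c, p ∣ S1 z y x j
  · left
    obtain ⟨j, hj, hjd⟩ := h
    have hj' : cls j = c := (mem_filter.1 hj).2
    have h3 := hE j p hpp hjd
    rw [hj'] at h3
    have hnE : p ∉ E := by
      intro h4
      have h5 := h3.1 h4
      rw [hp.2.2] at h5
      norm_num at h5
    have hmem : p ∈ (mc cls (S1 z y x) c).primeFactors := by
      rw [Nat.mem_primeFactors]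
      exact ⟨hpp, (dvd_mc hpp).2 ⟨j, hj', hjd⟩, prod_ne_zero_iff.2 fun j _ => S1_ne j⟩
    rw [Nat.mem_primeFactors]
    refine ⟨hpp, ?_, ?_⟩
    · unfold Ms
      exact dvd_prod_of_mem (fun p => p) (mem_filter.2 ⟨hmem, hnE⟩)
    · unfold Ms
      exact prod_ne_zero_iff.2 fun q hq => (Nat.prime_of_mem_primeFactors (mem_filter.1 hq).1).ne_zero
  · right
    exact ⟨hp.1, fun j hj hd => h ⟨j, hj, hd⟩⟩

lemma fc_add (cls : J → Fin 3) {c c' : Fin 3} (h : c ≠ c') (f : J → ℕ) :
    ∑ j ∈ fc cls c, f j + ∑ j ∈ fc cls c', f j ≤ ∑ j, f j := by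
  rw [← sum_union]
  · exact sum_le_sum_of_subset (subset_univ _)
  · rw [Finset.disjoint_left]
    intro j h1 h2
    exact h ((mem_filter.1 h1).2.symm.trans (mem_filter.1 h2).2)

/-- **S_DZ** -/
theorem s_DZ : S_DZ := by
  intro J _ _ cls a x z y X k D E c hz2 hG ha hB heq hb hX hy hk hE
  set A := Fv cls a x 0 with hA
  set B := Fv cls a x 1 with hBd
  have hcop : ∀ i j : J, i ≠ j → (S1 z y x i).Coprime (S1 z y x j) := by
    intro i j hij
    rw [Nat.coprime_iff_gcd_eq_one]
    by_contra hne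
    obtain ⟨p, hp, hpd⟩ := Nat.exists_prime_and_dvd hne
    exact hij (S1_uniq hG hp (hpd.trans (Nat.gcd_dvd_right _ _))
      (hpd.trans (Nat.gcd_dvd_left _ _)))
  have hMo : ∀ c c1 c2 : Fin 3, univ.filter (fun e : Fin 3 => e ≠ c) = {c1, c2} → c1 ≠ c2 →
      (Mo (mc cls (S1 z y x)) c).primeFactors.card =
        (mc cls (S1 z y x) c1).primeFactors.card + (mc cls (S1 z y x) c2).primeFactors.card := by
    intro c c1 c2 h hne
    have hco : (mc cls (S1 z y x) c1).Coprime (mc cls (S1 z y x) c2) := by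
      unfold mc
      refine Nat.Coprime.prod_left fun i hi => Nat.Coprime.prod_right fun j hj => ?_
      apply hcop
      rintro rfl
      exact hne ((mem_filter.1 hi).2.symm.trans (mem_filter.1 hj).2)
    unfold Mo
    rw [h, prod_pair hne, hco.primeFactors_mul, card_union_of_disjoint hco.disjoint_primeFactors]
  have hz' := two_pz z
  set S := ∑ j, (S2 z y x j).primeFactors.card with hS
  set N := Fintype.card J with hN
  set W : ℕ := z + 2 + D * N * k + S with hW
  have hbd : ∀ c, bd cls a x z y c ≤ pz z + (fc cls c).card * (D * k) +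
      ∑ j ∈ fc cls c, (S2 z y x j).primeFactors.card := bd_le hG hB hy hb hk
  have hb1 : ∀ c, bd cls a x z y c ≤ W := by
    intro c
    have h1 := hbd c
    have h2 : (fc cls c).card ≤ N := card_le_univ _
    have h3 : ∑ j ∈ fc cls c, (S2 z y x j).primeFactors.card ≤ S :=
      sum_le_sum_of_subset (subset_univ _)
    have h4 : (fc cls c).card * (D * k) ≤ D * N * k := by
      calc (fc cls c).card * (D * k) ≤ N * (D * k) := Nat.mul_le_mul_right _ h2
        _ = D * N * k := by ring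
    omega
  have hb2 : ∀ c c' : Fin 3, c ≠ c' → bd cls a x z y c + bd cls a x z y c' ≤ W := by
    intro c c' hcc
    have h1 := hbd c
    have h1' := hbd c'
    have h2 := fc_add cls hcc (fun j => (S2 z y x j).primeFactors.card)
    have h3 := fc_add cls hcc (fun _ => 1)
    rw [sum_const, sum_const, sum_const, card_univ, ← hN, smul_eq_mul, smul_eq_mul, smul_eq_mul,
      mul_one, mul_one, mul_one] at h3
    have h4 : (fc cls c).card * (D * k) + (fc cls c').card * (D * k) ≤ D * N * k := by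
      calc (fc cls c).card * (D * k) + (fc cls c').card * (D * k) =
          ((fc cls c).card + (fc cls c').card) * (D * k) := by ring
        _ ≤ N * (D * k) := Nat.mul_le_mul_right _ h3
        _ = D * N * k := by ring
    rw [← hS] at h2
    omega
  have h1 := sp_le (cls := cls) (E := E) hz2 hG hB ha hE c
  have h2 := sp_bd (cls := cls) (a := a) (E := E) hE c
  have o0 := om_bd (y := y) (cls := cls) hG ha hB 0
  have o1 := om_bd (y := y) (cls := cls) hG ha hB 1
  have o2 := om_bd (y := y) (cls := cls) hG ha hB 2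
  rw [← hA] at o0
  rw [← hBd] at o1
  rw [← heq] at o2
  have b0 := hb1 c
  have b01 := hb2 0 1 (by decide)
  have b02 := hb2 0 2 (by decide)
  have b12 := hb2 1 2 (by decide)
  rw [abs_le]
  unfold dl
  have hc : c = 0 ∨ c = 1 ∨ c = 2 := by
    fin_cases c <;> simp
  clear_value W
  rcases hc with rfl | rfl | rfl
  · have h3 := hMo 0 1 2 (by decide) (by decide)
    rw [kz0, ← hA, ← hBd] at h1 h2
    rw [dz0, h3]
    push_cast
    constructor <;> omega
  · have h3 := hMo 1 0 2 (by decide) (by decide)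
    rw [kz1, ← hA, ← hBd] at h1 h2
    rw [dz1, h3]
    push_cast
    constructor <;> omega
  · have h3 := hMo 2 0 1 (by decide) (by decide)
    rw [kz2, ← hA, ← heq] at h1 h2
    rw [dz2, h3]
    push_cast
    constructor <;> omega

end Pool.Agent.L7h89.FT
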